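import Pool.Agent.Y142.ZD.Stm
import Pool.Agent.Y337.ZO.Key

set_option autoImplicit false

/-! Project OI (helper282), job DISCE: the discriminant of the form. -/

namespace Pool.Agent.Q288.OI.DISCE

open Matrix Polynomial Pool.Agent.Y142.ZO

theorem t : Pool.Agent.Y142.ZD.S_DISCE := by
  intro F _ _ N hN B g hB hg hz1 hz2
  by_cases hBd : B.det = 0
  · rw [hBd, mul_zero]
    exact ⟨0, by ring⟩
  -- the two values of the characteristic polynomial
  have hd0 : g.charpoly.eval 1 = (1 - g).det := by
    rw [eval_charpoly g (1 : F), map_one]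
  have hd1 : g.charpoly.eval (-1) = (g + 1).det := by
    have h := eval_charpoly g (-1 : F)
    have h2 : (Matrix.scalar (Fin N)) (-1 : F) - g = -(g + 1) := by
      rw [map_neg, map_one]
      abel
    rw [h2, det_neg, Fintype.card_fin, hN.neg_one_pow, one_mul] at h
    exact h
  have hd1' : (g + 1).det ≠ 0 := by
    rw [← hd1]
    exact hz2
  -- the inverse of `g`
  have hdet2 : g.det * g.det = 1 := by
    have h := congrArg Matrix.det hg
    rw [det_mul, det_mul, det_transpose] at h
    have h3 : (g.det * g.det) * B.det = 1 * B.det := by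
      rw [one_mul]
      linear_combination h
    exact mul_right_cancel₀ hBd h3
  have hgd : g.det ≠ 0 := fun h => by
    rw [h, zero_mul] at hdet2
    exact zero_ne_one hdet2
  have hgu : IsUnit g.det := isUnit_iff_ne_zero.2 hgd
  have hgi : g * g⁻¹ = 1 := mul_nonsing_inv g hgu
  have hig : g⁻¹ * g = 1 := nonsing_inv_mul g hgu
  -- `B g⁻¹ = gᵀ B`
  have hBi : B * g⁻¹ = gᵀ * B := by
    have h : gᵀ * B * g * g⁻¹ = B * g⁻¹ := by rw [hg]
    rw [mul_assoc, hgi, mul_one] at h
    exact h.symm
  have hdetg : g.det = 1 := by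
    have h1 : B * (g⁻¹ + 1) = (gᵀ + 1) * B := by
      rw [mul_add, add_mul, hBi, mul_one, one_mul]
    have h2 := congrArg Matrix.det h1
    rw [det_mul, det_mul] at h2
    have h3 : (gᵀ + 1).det = (g + 1).det := by
      rw [← det_transpose (g + 1), transpose_add, transpose_one]
    rw [h3] at h2
    have h4 : (g⁻¹ + 1).det = (g + 1).det := by
      have h5 : B.det * (g⁻¹ + 1).det = B.det * (g + 1).det := by
        rw [h2]
        ring
      exact mul_left_cancel₀ hBd h5
    have h6 : g + 1 = g * (g⁻¹ + 1) := by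
      rw [mul_add, hgi, mul_one]
      abel
    have h7 := congrArg Matrix.det h6
    rw [det_mul, h4] at h7
    have h8 : 1 * (g + 1).det = g.det * (g + 1).det := by
      rw [one_mul]
      exact h7
    exact (mul_right_cancel₀ hd1' h8).symm
  -- the skew map
  have hT : (B * (g - g⁻¹))ᵀ = -(B * (g - g⁻¹)) := by
    rw [mul_sub, hBi, transpose_sub, transpose_mul, transpose_mul, transpose_transpose, hB]
    abel
  have hdi : (g⁻¹).det = 1 := by
    have h := congrArg Matrix.det hgi
    rw [det_mul, hdetg, one_mul, det_one] at h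
    exact h
  have hfac : g - g⁻¹ = -((1 - g) * (g + 1) * g⁻¹) := by
    have e3 : (1 - g) * (g + 1) = 1 - g * g := by
      noncomm_ring
    rw [e3, sub_mul, mul_assoc, hgi, mul_one, one_mul]
    abel
  have hdT : (g - g⁻¹).det = g.charpoly.eval 1 * g.charpoly.eval (-1) := by
    rw [hfac, det_neg, Fintype.card_fin, hN.neg_one_pow, one_mul, det_mul, det_mul, hdi, mul_one,
      hd0, hd1]
  have h3 := Pool.Agent.Y337.ZO.isSquare_add_vecMulVec (B * (g - g⁻¹)) 0 hT
  rw [vecMulVec_zero, add_zero, det_mul, hdT] at h3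
  convert h3 using 1
  ring

end Pool.Agent.Q288.OI.DISCE
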